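import Pool.Agent.Lib.MP_6bc78b_nt.MS.P4.Iface2

/-! Project MS, Part IV, module FIN2: the final theorem, full form. -/

set_option autoImplicit false

open Complex Filter Topology ArithmeticFunction

namespace Pool.Agent.Lib.MP_6bc78b_nt.MS.P4.H93

open Pool.Agent.Lib.MP_6bc78b_nt Pool.Agent.Lib.MP_6bc78b_nt.MS

open Classical in
/-- Multiplicities of the zeros of multiplicity at least `k`. -/
noncomputable def bk (k : ℕ) (γ : ℝ) : ℝ :=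
  if riemannZeta (1 / 2 + γ * I) = 0 ∧ k ≤ mz γ then (mz γ : ℝ) else 0

theorem bk_nonneg (k : ℕ) (γ : ℝ) : 0 ≤ bk k γ := by
  unfold bk
  split_ifs
  · positivity
  · exact le_rfl

theorem cG_log_pos {T : ℝ} (hT : 1 < T) : 0 < cG T * Real.log T := by
  have h1 : 0 < Real.log T := Real.log_pos hT
  have h2 : 0 < DD T := div_pos (by linarith) (Real.rpow_pos_of_pos h1 _)
  have h3 : 0 < Real.sqrt Real.pi := Real.sqrt_pos.2 Real.pi_pos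
  exact mul_pos (div_pos h2 (by positivity)) h1

theorem sum_bk (k : ℕ) (T : ℝ) :
    ∑ᶠ γ ∈ zset T, bk k γ * wt T γ =
      ∑ᶠ γ ∈ {γ | γ ∈ zset T ∧ k ≤ mz γ}, (mz γ : ℝ) * wt T γ := by
  rw [finsum_mem_def, finsum_mem_def]
  refine finsum_congr fun γ => ?_
  by_cases h1 : γ ∈ zset T
  · by_cases h2 : k ≤ mz γ
    · rw [Set.indicator_of_mem h1, Set.indicator_of_mem (show γ ∈ {γ | γ ∈ zset T ∧ k ≤ mz γ} from
        ⟨h1, h2⟩), bk, if_pos ⟨h1.2.2, h2⟩]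
    · rw [Set.indicator_of_mem h1, Set.indicator_of_notMem (fun h => h2 h.2), bk,
        if_neg (fun h => h2 h.2), zero_mul]
  · rw [Set.indicator_of_notMem h1, Set.indicator_of_notMem (fun h => h1 h.1)]

theorem Nb_mz (hZ : ZfacStatement) (X : ℝ) : Nb (fun γ => (mz γ : ℝ)) X = NZ X := by
  obtain ⟨z1, z2, -⟩ := hZ
  rw [Nb, NZ, finsum_mem_def, finsum_mem_def]
  refine finsum_congr fun γ => ?_
  by_cases h : 0 < γ ∧ γ ≤ X ∧ riemannZeta (1 / 2 + γ * I) = 0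
  · rw [Set.indicator_of_mem (show γ ∈ {γ : ℝ | 0 < γ ∧ γ ≤ X ∧ riemannZeta (1 / 2 + γ * I) = 0}
      from h), Set.indicator_of_mem (show γ ∈ {γ : ℝ | 0 < γ ∧ γ ≤ X ∧ hardyZ γ = 0} from
      ⟨h.1, h.2.1, (z1 γ).2 h.2.2⟩), z2 γ h.2.2]
  · rw [Set.indicator_of_notMem (show γ ∉ {γ : ℝ | 0 < γ ∧ γ ≤ X ∧ riemannZeta (1 / 2 + γ * I) = 0}
      from h), Set.indicator_of_notMem (show γ ∉ {γ : ℝ | 0 < γ ∧ γ ≤ X ∧ hardyZ γ = 0} from
      fun h' => h ⟨h'.1, h'.2.1, (z1 γ).1 h'.2.2⟩)]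

theorem Nb_bk (hZ : ZfacStatement) (k : ℕ) (X : ℝ) : Nb (bk k) X = NZm k X := by
  obtain ⟨z1, z2, -⟩ := hZ
  rw [Nb, NZm, finsum_mem_def, finsum_mem_def]
  refine finsum_congr fun γ => ?_
  by_cases h : 0 < γ ∧ γ ≤ X ∧ riemannZeta (1 / 2 + γ * I) = 0
  · rw [Set.indicator_of_mem (show γ ∈ {γ : ℝ | 0 < γ ∧ γ ≤ X ∧ riemannZeta (1 / 2 + γ * I) = 0}
      from h)]
    by_cases h2 : k ≤ mz γ
    · rw [Set.indicator_of_mem (show γ ∈ {γ : ℝ | 0 < γ ∧ γ ≤ X ∧ hardyZ γ = 0 ∧ k ≤ zeroMult γ}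
        from ⟨h.1, h.2.1, (z1 γ).2 h.2.2, by rw [z2 γ h.2.2]; exact h2⟩), z2 γ h.2.2, bk,
        if_pos ⟨h.2.2, h2⟩]
    · rw [Set.indicator_of_notMem (show γ ∉ {γ : ℝ | 0 < γ ∧ γ ≤ X ∧ hardyZ γ = 0 ∧
        k ≤ zeroMult γ} from fun h' => h2 (by have := h'.2.2.2; rwa [z2 γ h.2.2] at this)), bk,
        if_neg (fun h' => h2 h'.2)]
  · rw [Set.indicator_of_notMem (show γ ∉ {γ : ℝ | 0 < γ ∧ γ ≤ X ∧ riemannZeta (1 / 2 + γ * I) = 0}
      from h), Set.indicator_of_notMem (show γ ∉ {γ : ℝ | 0 < γ ∧ γ ≤ X ∧ hardyZ γ = 0 ∧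
      k ≤ zeroMult γ} from fun h' => h ⟨h'.1, h'.2.1, (z1 γ).1 h'.2.2.1⟩)]

/-- Few zeros of multiplicity at least `k`. -/
theorem few (hCK : CertkStatement) (hQ : QslStatement) (hA : AvgStatement) (hZ : ZfacStatement)
    {k : ℕ} (hk : 2 ≤ k) {th lam c1 c2 be q0 q' : ℝ} (h1 : 0 < th) (h2 : th < 1 / 2)
    (h3 : th < lam) (h4 : lam < 1) (h5 : 0 ≤ be) (hq0 : 0 ≤ q0) (hqq : q0 < (1 - 1 / 10000) * q')
    (h6 : QQ th lam c1 c2 be < q0 * (1 + be * ((k : ℝ) / 2 - 1)) ^ 2) :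
    ∀ᶠ X : ℝ in atTop, NZm k X ≤ q' * NZ X := by
  have hk' : (2 : ℝ) ≤ (k : ℝ) := by exact_mod_cast hk
  set K : ℝ := (1 + be * ((k : ℝ) / 2 - 1)) ^ 2 with hK
  have hKpos : 0 < K := by
    have : 0 ≤ be * ((k : ℝ) / 2 - 1) := mul_nonneg h5 (by linarith)
    positivity
  have hc := hCK k th lam c1 c2 be (1 / 10000) hk (by linarith) h4 h5 (by norm_num) (by norm_num)
  have hl := (hQ th lam c1 c2 be h1 h2 h3 h4).eventually_lt_const h6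
  have key : ∀ᶠ T : ℝ in atTop, ∑ᶠ γ ∈ zset T, bk k γ * wt T γ ≤
      q0 / (1 - 1 / 10000) * (cG T * Real.log T) := by
    filter_upwards [hc, hl, eventually_gt_atTop (1 : ℝ)] with T hcT hlT hT
    rw [sum_bk]
    have hp := cG_log_pos hT
    rw [div_lt_iff₀ hp] at hlT
    have h7 : (1 - 1 / 10000) * K * ∑ᶠ γ ∈ {γ | γ ∈ zset T ∧ k ≤ mz γ}, (mz γ : ℝ) * wt T γ ≤
        q0 * K * (cG T * Real.log T) := hcT.trans hlT.le
    have h8 : K * ((1 - 1 / 10000) * ∑ᶠ γ ∈ {γ | γ ∈ zset T ∧ k ≤ mz γ}, (mz γ : ℝ) * wt T γ) ≤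
        K * (q0 * (cG T * Real.log T)) := by
      calc _ = (1 - 1 / 10000) * K *
            ∑ᶠ γ ∈ {γ | γ ∈ zset T ∧ k ≤ mz γ}, (mz γ : ℝ) * wt T γ := by ring
        _ ≤ q0 * K * (cG T * Real.log T) := h7
        _ = _ := by ring
    have h9 := le_of_mul_le_mul_left h8 hKpos
    rw [div_mul_eq_mul_div, le_div_iff₀ (by norm_num)]
    linarith
  have hav := hA (bk k) (bk_nonneg k) (q0 / (1 - 1 / 10000)) q' (by positivity) (by
    rw [div_lt_iff₀ (by norm_num)]; linarith) key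
  filter_upwards [hav] with X hX
  rwa [Nb_bk hZ, Nb_mz hZ] at hX

theorem fin2 (hFin : FinalStatement) (hCK : CertkStatement) (hQ : QslStatement)
    (h3 : Num3Statement) (h4 : Num4Statement) (hA : AvgStatement) (hZ : ZfacStatement) :
    Final2Statement := by
  obtain ⟨T1, hT1⟩ := hFin
  obtain ⟨th, lam, c1, c2, be, a1, a2, a3, a4, a5, a6⟩ := h3
  obtain ⟨th', lam', c1', c2', be', b1, b2, b3, b4, b5, b6⟩ := h4
  have e3 := few hCK hQ hA hZ (k := 3) (q0 := 0.02339) (q' := 0.0234) (by norm_num) a1 a2 a3 a4 a5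
    (by norm_num) (by norm_num) (by exact_mod_cast a6)
  have e4 := few hCK hQ hA hZ (k := 4) (q0 := 0.006398) (q' := 0.0064) (by norm_num) b1 b2 b3 b4 b5
    (by norm_num) (by norm_num) (by exact_mod_cast b6)
  obtain ⟨T2, hT2⟩ := eventually_atTop.1 (e3.and e4)
  refine ⟨max T1 T2, fun T hT => ?_⟩
  have g1 := hT1 T ((le_max_left _ _).trans hT)
  have g2 := hT2 T ((le_max_right _ _).trans hT)
  exact ⟨g1.1, g1.2, g2.1, g2.2⟩

end Pool.Agent.Lib.MP_6bc78b_nt.MS.P4.H93
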